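import Pool.Agent.W516.K3.Defs

set_option autoImplicit false

/-! The base change of the irreducibility statement. -/

namespace Pool.Agent.W32.DK

open Module TensorProduct Pool.Agent.W516.K3

section

variable {k L T H : Type} [Field k] [Field L] [Algebra k L]
  [AddCommGroup T] [Module k T] [AddCommGroup H] [Module k H]

/-- base change of the form -/
noncomputable def bb (L : Type) [Field L] [Algebra k L] (b : T →ₗ[k] T →ₗ[k] k) :
    (L ⊗[k] T) →ₗ[L] (L ⊗[k] T) →ₗ[L] L :=
  LinearMap.BilinForm.baseChange L b

lemma bb_tmul (b : T →ₗ[k] T →ₗ[k] k) (a a' : L) (t t' : T) :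
    bb L b (a ⊗ₜ[k] t) (a' ⊗ₜ[k] t') = (b t t') • (a * a') := rfl

/-- base change of the Clifford action -/
noncomputable def gg (L : Type) [Field L] [Algebra k L] (γ : T →ₗ[k] Module.End k H) :
    (L ⊗[k] T) →ₗ[L] Module.End L (L ⊗[k] H) :=
  LinearMap.liftBaseChange L ((LinearMap.baseChangeHom k L H H) ∘ₗ γ)

lemma gg_tmul (γ : T →ₗ[k] Module.End k H) (a : L) (t : T) :
    gg L γ (a ⊗ₜ[k] t) = a • (γ t).baseChange L := by
  unfold gg
  rw [LinearMap.liftBaseChange_tmul]
  rfl

lemma bb_symm (b : T →ₗ[k] T →ₗ[k] k) (hb : ∀ u v, b u v = b v u) (u v : L ⊗[k] T) :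
    bb L b u v = bb L b v u := by
  induction u using TensorProduct.induction_on with
  | zero => simp
  | add x y hx hy => rw [map_add, map_add, LinearMap.add_apply, hx, hy]
  | tmul a t =>
    induction v using TensorProduct.induction_on with
    | zero => simp
    | add x y hx hy => rw [map_add, map_add, LinearMap.add_apply, hx, hy]
    | tmul a' t' => rw [bb_tmul, bb_tmul, hb t t', mul_comm]

lemma bb_nondeg [FiniteDimensional k T] (b : T →ₗ[k] T →ₗ[k] k) (hs : ∀ u v, b u v = b v u)
    (hb : ∀ u, (∀ v, b u v = 0) → u = 0)
    (u : L ⊗[k] T) (hu : ∀ v, bb L b u v = 0) : u = 0 := by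
  have hinj : Function.Injective b := by
    rw [injective_iff_map_eq_zero]
    intro x hx
    exact hb x fun v => by rw [hx]; rfl
  have hsur : Function.Surjective b :=
    (LinearMap.injective_iff_surjective_of_finrank_eq_finrank
      (Subspace.dual_finrank_eq (K := k) (V := T)).symm).1 hinj
  set e := Module.finBasis k T with he
  have hd : ∀ j, ∃ d : T, ∀ i, b (e i) d = if i = j then 1 else 0 := by
    intro j
    obtain ⟨d, hd⟩ := hsur (e.coord j)
    refine ⟨d, fun i => ?_⟩
    rw [hs, hd, Basis.coord_apply, Basis.repr_self, Finsupp.single_apply]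
  choose d hd using hd
  set e' := e.baseChange L with he'
  have h0 : e'.repr u = 0 := by
    ext j
    have h1 := hu (1 ⊗ₜ[k] d j)
    rw [← e'.sum_repr u, map_sum, LinearMap.sum_apply] at h1
    have h2 : ∀ i, bb L b (e'.repr u i • e' i) (1 ⊗ₜ[k] d j) =
        if i = j then e'.repr u i else 0 := by
      intro i
      rw [map_smul, LinearMap.smul_apply, he', Basis.baseChange_apply, bb_tmul, hd]
      split_ifs <;> simp
    rw [Finset.sum_congr rfl fun i _ => h2 i] at h1
    simpa using h1
  have := e'.repr.map_eq_zero_iff.1 h0
  exact this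

end

theorem T_IRRL : S_IRR → S_IRRL := by
  intro hI k L T H _ _ _ _ _ _ _ _ _ _ _ b γ S hs hn h3 hcl hcom hsk had U hU
  have : CharZero L := charZero_of_injective_algebraMap (algebraMap k L).injective
  have : Nontrivial (L ⊗[k] H) := by
    apply Module.nontrivial_of_finrank_pos (R := L)
    rw [Module.finrank_baseChange]
    exact Module.finrank_pos
  have hB : ∀ f g : Module.End k H, (f * g).baseChange L = f.baseChange L * g.baseChange L :=
    fun f g => LinearMap.baseChange_comp _ _
  refine hI L (L ⊗[k] T) (L ⊗[k] H) (bb L b) (gg L γ)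
    {q | ∃ p ∈ S, q = (p.1.baseChange L, p.2.baseChange L)} (bb_symm b hs) (bb_nondeg b hs hn)
    (by rw [Module.finrank_baseChange]; exact h3) ?_ ?_ ?_ ?_ U ?_
  · -- the Clifford relation
    intro u v
    induction u using TensorProduct.induction_on with
    | zero => simp
    | add x y hx hy =>
      rw [map_add, add_mul, mul_add, map_add, LinearMap.add_apply, mul_add, add_smul, ← hx, ← hy]
      abel
    | tmul a t =>
      induction v using TensorProduct.induction_on with
      | zero => simp
      | add x y hx hy =>
        rw [map_add, add_mul, mul_add, map_add, mul_add, add_smul, ← hx, ← hy]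
        abel
      | tmul a' t' =>
        rw [gg_tmul, gg_tmul, bb_tmul, smul_mul_smul_comm, smul_mul_smul_comm, ← hB, ← hB,
          mul_comm a' a, ← smul_add, ← LinearMap.baseChange_add, hcl]
        rw [LinearMap.baseChange_smul]
        have h1 : (1 : Module.End k H).baseChange L = 1 := LinearMap.baseChange_id
        rw [h1, ← algebraMap_smul L (2 * b t t') (1 : Module.End L (L ⊗[k] H)), smul_smul]
        congr 1
        rw [Algebra.smul_def, map_mul, map_ofNat]
        ring
  · rintro q ⟨p, hp, rfl⟩ t
    have hc : ∀ t, p.1 * γ t = γ (p.2 t) + γ t * p.1 := fun t => sub_eq_iff_eq_add.1 (hcom p hp t)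
    have key : p.1.baseChange L * gg L γ t =
        gg L γ (p.2.baseChange L t) + gg L γ t * p.1.baseChange L := by
      induction t using TensorProduct.induction_on with
      | zero => rw [map_zero, map_zero, map_zero, mul_zero, zero_mul, add_zero]
      | add x y hx hy =>
        rw [map_add, mul_add, add_mul, map_add, map_add, hx, hy]
        abel
      | tmul a t =>
        rw [LinearMap.baseChange_tmul, gg_tmul, gg_tmul, mul_smul_comm, smul_mul_assoc, ← hB,
          ← hB, ← smul_add, ← LinearMap.baseChange_add, hc]
    have h2 := sub_eq_iff_eq_add (G := Module.End L (L ⊗[k] H)).2 key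
    exact h2
  · rintro q ⟨p, hp, rfl⟩ u v
    show bb L b (p.2.baseChange L u) v + bb L b u (p.2.baseChange L v) = 0
    induction u using TensorProduct.induction_on with
    | zero => simp
    | add x y hx hy =>
      rw [map_add, map_add, map_add, LinearMap.add_apply, LinearMap.add_apply]
      linear_combination hx + hy
    | tmul a t =>
      induction v using TensorProduct.induction_on with
      | zero => simp
      | add x y hx hy =>
        rw [map_add, map_add, map_add]
        linear_combination hx + hy
      | tmul a' t' =>
        rw [LinearMap.baseChange_tmul, LinearMap.baseChange_tmul, bb_tmul, bb_tmul, ← add_smul,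
          hsk p hp, zero_smul]
  · intro u v
    set A := Algebra.adjoin L {Z : Module.End L (L ⊗[k] H) |
      ∃ p ∈ {q : Module.End L (L ⊗[k] H) × Module.End L (L ⊗[k] T) |
        ∃ p ∈ S, q = (p.1.baseChange L, p.2.baseChange L)}, p.1 = Z} with hA
    have key : ∀ Z ∈ Algebra.adjoin k {Z | ∃ p ∈ S, p.1 = Z}, Z.baseChange L ∈ A := by
      intro Z hZ
      induction hZ using Algebra.adjoin_induction with
      | mem x hx =>
        obtain ⟨p, hp, rfl⟩ := hx
        exact Algebra.subset_adjoin ⟨_, ⟨p, hp, rfl⟩, rfl⟩
      | algebraMap r =>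
        have : (algebraMap k (Module.End k H) r).baseChange L =
            algebraMap L (Module.End L (L ⊗[k] H)) (algebraMap k L r) := by
          rw [Algebra.algebraMap_eq_smul_one, LinearMap.baseChange_smul,
            Algebra.algebraMap_eq_smul_one (R := L), algebraMap_smul]
          congr 1
          exact LinearMap.baseChange_id
        rw [this]
        exact Subalgebra.algebraMap_mem _ _
      | add x y hx hy h1 h2 =>
        rw [LinearMap.baseChange_add]; exact add_mem h1 h2
      | mul x y hx hy h1 h2 =>
        rw [hB]; exact mul_mem h1 h2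
    induction u using TensorProduct.induction_on with
    | zero => rw [map_zero, zero_mul]; exact zero_mem _
    | add x y hx hy => rw [map_add, add_mul]; exact add_mem hx hy
    | tmul a t =>
      induction v using TensorProduct.induction_on with
      | zero => rw [map_zero, mul_zero]; exact zero_mem _
      | add x y hx hy => rw [map_add, mul_add]; exact add_mem hx hy
      | tmul a' t' =>
        rw [gg_tmul, gg_tmul, smul_mul_smul_comm, ← hB]
        exact Subalgebra.smul_mem _ (key _ (had t t')) _
  · rintro q ⟨p, hp, rfl⟩ u hu
    exact hU p hp u hu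

end Pool.Agent.W32.DK
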